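import Mathlib

/-!
# Doubling words and local finiteness

`w u x y 0 = u(x)`, `w u x y (i + 1) = [w u x y i, (w u x y i) ^ (y i)]`.
-/

set_option autoImplicit false

namespace Pool.Agent.W5h29.BN

open Subgroup

open scoped commutatorElement

universe u v

/-- the words -/
def w {k : ℕ} (u : FreeGroup (Fin k)) {G : Type u} [Group G] (x : Fin k → G) (y : ℕ → G) : ℕ → G
  | 0 => FreeGroup.lift x u
  | i + 1 => ⁅w u x y i, (y i)⁻¹ * w u x y i * y i⁆

/-- locally finite groups -/
def LF (G : Type u) [Group G] : Prop := ∀ S : Set G, S.Finite → Finite (closure S)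

/-- `n ∈ 𝓛` -/
def InL (n : ℕ) : Prop := ∀ (G : Type u) [Group G], (∀ x : G, x ^ n = 1) → LF G

lemma w_congr {k : ℕ} (u : FreeGroup (Fin k)) {G : Type u} [Group G] (x : Fin k → G)
    {y z : ℕ → G} (i : ℕ) (h : ∀ j < i, y j = z j) : w u x y i = w u x z i := by
  induction i with
  | zero => rfl
  | succ i ih =>
    simp only [w]
    rw [ih (fun j hj => h j (by omega)), h i (by omega)]

lemma map_w {k : ℕ} (u : FreeGroup (Fin k)) {G : Type u} {H : Type v} [Group G] [Group H]
    (f : G →* H) (x : Fin k → G) (y : ℕ → G) (i : ℕ) :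
    f (w u x y i) = w u (fun j => f (x j)) (fun j => f (y j)) i := by
  induction i with
  | zero =>
    simp only [w]
    have h : f.comp (FreeGroup.lift x) = FreeGroup.lift (fun j => f (x j)) := by
      ext j
      simp
    exact DFunLike.congr_fun h u
  | succ i ih => simp only [w, map_commutatorElement, map_mul, map_inv, ih]

/-- the groups of exponent dividing `n` which satisfy the law `u` are locally finite -/
def LawLF (n : ℕ) {k : ℕ} (u : FreeGroup (Fin k)) : Prop :=
  ∀ (G : Type u) [Group G], (∀ g : G, g ^ n = 1) → (∀ x : Fin k → G, FreeGroup.lift x u = 1) → LF G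

/-- local finiteness of a subgroup -/
def LFs {G : Type u} [Group G] (N : Subgroup G) : Prop :=
  ∀ S : Set G, S.Finite → S ⊆ N → Finite (closure S)

lemma lfs_iff {G : Type u} [Group G] (N : Subgroup G) : LFs N ↔ LF N := by
  constructor
  · intro h S hS
    have h1 : Finite (closure (N.subtype '' S)) := h _ (hS.image _) (by
      rintro _ ⟨x, -, rfl⟩
      exact x.2)
    rw [← MonoidHom.map_closure] at h1
    have h2 : Finite (closure S) := by
      refine Finite.of_injective (fun x : closure S =>
        (⟨N.subtype x, ⟨x, x.2, rfl⟩⟩ : (closure S).map N.subtype)) ?_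
      intro a b hab
      have h3 := Subtype.ext_iff.1 hab
      exact Subtype.ext (Subtype.ext h3)
    exact h2
  · intro h S hS hSN
    have h1 : Finite (closure (N.subtype ⁻¹' S)) := by
      apply h
      exact hS.preimage (fun a _ b _ hab => Subtype.ext hab)
    have h2 : closure S = (closure (N.subtype ⁻¹' S)).map N.subtype := by
      rw [MonoidHom.map_closure, Set.image_preimage_eq_of_subset]
      intro x hx
      exact ⟨⟨x, hSN hx⟩, rfl⟩
    rw [h2]
    exact Finite.of_surjective (fun x : closure (N.subtype ⁻¹' S) =>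
      (⟨N.subtype x, ⟨x, x.2, rfl⟩⟩ : (closure (N.subtype ⁻¹' S)).map N.subtype))
      (by rintro ⟨_, x, hx, rfl⟩; exact ⟨⟨x, hx⟩, rfl⟩)

/-- extensions -/
lemma lf_ext {G : Type u} {Q : Type v} [Group G] [Group Q] (f : G →* Q) (h1 : LFs f.ker)
    (h2 : LF Q) : LF G := by
  intro S hS
  set H := closure S with hH
  have hfg : Group.FG H := by
    rw [Group.fg_iff_subgroup_fg]
    exact ⟨hS.toFinset, by rw [Set.Finite.coe_toFinset]⟩
  set φ : H →* Q := f.comp H.subtype with hφ
  have hr : Finite φ.range := by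
    have e : φ.range = closure (f '' S) := by
      rw [hφ, MonoidHom.range_comp, Subgroup.range_subtype, hH, MonoidHom.map_closure]
    rw [e]
    exact h2 _ (hS.image _)
  have : φ.ker.FiniteIndex := inferInstance
  have hk : Group.FG φ.ker := inferInstance
  have hkf : Finite φ.ker := by
    rw [Group.fg_iff] at hk
    obtain ⟨T, hT, hTf⟩ := hk
    set ψ : φ.ker →* G := H.subtype.comp φ.ker.subtype with hψ
    have hinj : Function.Injective ψ := fun a b hab => Subtype.ext (Subtype.ext hab)
    have h3 : Finite (closure (ψ '' T)) := by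
      refine h1 _ (hTf.image _) ?_
      rintro _ ⟨x, -, rfl⟩
      exact x.2
    have e2 : closure (ψ '' T) = ψ.range := by
      rw [← MonoidHom.map_closure, hT, ← MonoidHom.range_eq_map]
    rw [e2] at h3
    exact Finite.of_injective ψ.rangeRestrict (MonoidHom.rangeRestrict_injective_iff.2 hinj)
  have : Finite (H ⧸ φ.ker) := inferInstance
  exact Finite.of_subgroup_quotient φ.ker

/-- abelian groups of finite exponent are locally finite -/
lemma lf_abelian {n : ℕ} (hn : 1 ≤ n) {G : Type u} [Group G] (N : Subgroup G)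
    (hG : ∀ x ∈ N, x ^ n = 1) (hc : ∀ x ∈ N, ∀ y ∈ N, x * y = y * x) : LFs N := by
  intro S hS hSN
  have hle : closure S ≤ N := (closure_le N).2 hSN
  let _ : CommGroup (closure S) :=
    { (inferInstance : Group (closure S)) with
      mul_comm := fun a b => Subtype.ext (hc _ (hle a.2) _ (hle b.2)) }
  have : Group.FG (closure S) := by
    rw [Group.fg_iff_subgroup_fg]
    exact ⟨hS.toFinset, by rw [Set.Finite.coe_toFinset]⟩
  refine CommGroup.finite_of_fg_isMulTorsion _ ?_
  intro x
  rw [isOfFinOrder_iff_pow_eq_one]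
  exact ⟨n, hn, Subtype.ext (by simpa using hG _ (hle x.2))⟩

/-- a maximal locally finite normal subgroup -/
lemma exists_max (G : Type u) [Group G] : ∃ R : Subgroup G, R.Normal ∧ LFs R ∧
    ∀ A : Subgroup G, A.Normal → R ≤ A → LFs A → A = R := by
  have hz : ∃ R : Subgroup G, Maximal (fun N : Subgroup G => N.Normal ∧ LFs N) R := by
    refine zorn_le₀ {N : Subgroup G | N.Normal ∧ LFs N} ?_
    intro c hc hchain
    rcases c.eq_empty_or_nonempty with rfl | hne
    · refine ⟨⊥, ⟨inferInstance, ?_⟩, fun z hz => hz.elim⟩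
      intro S hS hSb
      have : closure S ≤ ⊥ := (closure_le ⊥).2 hSb
      rw [le_bot_iff.1 this]
      infer_instance
    · have hdir : DirectedOn (· ≤ ·) c := hchain.directedOn
      refine ⟨sSup c, ⟨?_, ?_⟩, fun N hN => le_sSup hN⟩
      · constructor
        intro x hx g
        rw [Subgroup.mem_sSup_of_directedOn hne hdir] at hx ⊢
        obtain ⟨N, hN, hxN⟩ := hx
        exact ⟨N, hN, (hc hN).1.conj_mem x hxN g⟩
      · intro S hS hSs
        have h1 : ∃ N ∈ c, S ⊆ N := by
          induction S, hS using Set.Finite.induction_on with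
          | empty =>
            obtain ⟨N, hN⟩ := hne
            exact ⟨N, hN, Set.empty_subset _⟩
          | @insert a S _ _ ih =>
            obtain ⟨N, hN, hSN⟩ := ih ((Set.subset_insert _ _).trans hSs)
            have ha : a ∈ sSup c := hSs (Set.mem_insert _ _)
            rw [Subgroup.mem_sSup_of_directedOn hne hdir] at ha
            obtain ⟨M, hM, haM⟩ := ha
            obtain ⟨K, hK, h2, h3⟩ := hdir N hN M hM
            refine ⟨K, hK, ?_⟩
            rw [Set.insert_subset_iff]
            exact ⟨h3 haM, hSN.trans h2⟩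
        obtain ⟨N, hN, hSN⟩ := h1
        exact (hc hN).2 S hS hSN
  obtain ⟨R, hR⟩ := hz
  exact ⟨R, hR.prop.1, hR.prop.2, fun A hA hRA hLA =>
    le_antisymm (hR.le_of_ge ⟨hA, hLA⟩ hRA) hRA⟩

/-- if `z` commutes with all its conjugates, its normal closure is abelian -/
lemma normalClosure_comm {G : Type u} [Group G] (z : G)
    (h : ∀ g : G, ⁅z, g⁻¹ * z * g⁆ = 1) :
    ∀ a ∈ normalClosure ({z} : Set G), ∀ b ∈ normalClosure ({z} : Set G), a * b = b * a := by
  have h0 : ∀ g : G, Commute z (g⁻¹ * z * g) := fun g => commutatorElement_eq_one_iff_commute.1 (h g)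
  have h1 : ∀ g k : G, Commute (g * z * g⁻¹) (k * z * k⁻¹) := by
    intro g k
    have h2 := h0 (k⁻¹ * g)
    have h3 : Commute (g * z * g⁻¹) (g * ((k⁻¹ * g)⁻¹ * z * (k⁻¹ * g)) * g⁻¹) := by
      have := (Commute.conj_iff g).2 h2
      exact this
    have e : g * ((k⁻¹ * g)⁻¹ * z * (k⁻¹ * g)) * g⁻¹ = k * z * k⁻¹ := by group
    rwa [e] at h3
  have h4 : ∀ a ∈ Group.conjugatesOfSet ({z} : Set G), ∀ b ∈ Group.conjugatesOfSet ({z} : Set G),
      a * b = b * a := by
    intro a ha b hb
    rw [Group.mem_conjugatesOfSet_iff] at ha hb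
    obtain ⟨_, rfl, ha⟩ := ha
    obtain ⟨_, rfl, hb⟩ := hb
    obtain ⟨g, rfl⟩ := isConj_iff.1 ha
    obtain ⟨k, rfl⟩ := isConj_iff.1 hb
    exact h1 g k
  intro a ha b hb
  unfold normalClosure at ha hb
  have h5 := Subgroup.isMulCommutative_closure h4
  have h6 := h5.is_comm.comm ⟨a, ha⟩ ⟨b, hb⟩
  exact congrArg Subtype.val h6

/-- **Main argument.** -/
theorem lf_of_law {n k d : ℕ} (hn : 1 ≤ n) {u : FreeGroup (Fin k)} (hm : LawLF.{u} n u)
    (G : Type u) [Group G] (hG : ∀ g : G, g ^ n = 1)
    (hw : ∀ (x : Fin k → G) (y : ℕ → G), w u x y d = 1) : LF G := by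
  obtain ⟨R, hR, hRL, hmax⟩ := exists_max G
  have hker : LFs (QuotientGroup.mk' R).ker := by rwa [QuotientGroup.ker_mk']
  have hGq : ∀ g : G ⧸ R, g ^ n = 1 := by
    intro g
    obtain ⟨y, rfl⟩ := QuotientGroup.mk'_surjective R g
    rw [← map_pow, hG, map_one]
  by_cases hq : ∀ x : Fin k → G ⧸ R, FreeGroup.lift x u = 1
  · exact lf_ext (QuotientGroup.mk' R) hker (hm _ hGq hq)
  exfalso
  push Not at hq
  obtain ⟨x0, hx0⟩ := hq
  have hwq : ∀ (x : Fin k → G ⧸ R) (y : ℕ → G ⧸ R), w u x y d = 1 := by
    intro x y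
    choose x' hx using fun i => QuotientGroup.mk'_surjective R (x i)
    choose y' hy using fun i => QuotientGroup.mk'_surjective R (y i)
    have e : w u x y d = (QuotientGroup.mk' R) (w u x' y' d) := by
      rw [map_w]
      congr 1
      · funext j
        exact (hx j).symm
      · funext j
        exact (hy j).symm
    rw [e, hw, map_one]
  have hno : ∀ z : G ⧸ R, z ≠ 1 → ∃ g : G ⧸ R, ⁅z, g⁻¹ * z * g⁆ ≠ 1 := by
    intro z hz
    by_contra hcon
    push Not at hcon
    have hc := normalClosure_comm z hcon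
    set A := normalClosure ({z} : Set (G ⧸ R)) with hA
    have hAL : LFs A := lf_abelian hn A (fun x _ => hGq x) hc
    set B := A.comap (QuotientGroup.mk' R) with hB
    have hBn : B.Normal := inferInstance
    have hRB : R ≤ B := by
      intro r hr
      rw [hB, mem_comap]
      have : (QuotientGroup.mk' R) r = 1 := (QuotientGroup.eq_one_iff r).2 hr
      rw [this]
      exact one_mem _
    have hBL : LFs B := by
      rw [lfs_iff]
      set f : B →* A := ((QuotientGroup.mk' R).comp B.subtype).codRestrict A (fun b => b.2) with hf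
      refine lf_ext f ?_ ((lfs_iff A).1 hAL)
      intro S hS hSk
      have h1 : Finite (closure (B.subtype '' S)) := by
        refine hRL _ (hS.image _) ?_
        rintro _ ⟨x, hx, rfl⟩
        have h2 : f x = 1 := hSk hx
        have h3 : (QuotientGroup.mk' R) (x : G) = 1 := congrArg Subtype.val h2
        exact (QuotientGroup.eq_one_iff _).1 h3
      rw [← MonoidHom.map_closure] at h1
      refine Finite.of_injective (fun x : closure S =>
        (⟨B.subtype x, ⟨x, x.2, rfl⟩⟩ : (closure S).map B.subtype)) ?_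
      intro a b hab
      have h3 := Subtype.ext_iff.1 hab
      exact Subtype.ext (Subtype.ext h3)
    have hBR := hmax B hBn hRB hBL
    obtain ⟨y, hy⟩ := QuotientGroup.mk'_surjective R z
    have hyB : y ∈ B := by
      rw [hB, mem_comap, hy]
      exact subset_normalClosure rfl
    rw [hBR] at hyB
    exact hz (by rw [← hy]; exact (QuotientGroup.eq_one_iff y).2 hyB)
  have key : ∀ i : ℕ, ∃ y : ℕ → G ⧸ R, w u x0 y i ≠ 1 := by
    intro i
    induction i with
    | zero => exact ⟨fun _ => 1, hx0⟩
    | succ i ih =>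
      obtain ⟨y, hy⟩ := ih
      obtain ⟨g, hg⟩ := hno _ hy
      refine ⟨Function.update y i g, ?_⟩
      have e : w u x0 (Function.update y i g) i = w u x0 y i :=
        w_congr u x0 i (fun j hj => Function.update_of_ne (by omega) _ _)
      simp only [w]
      rw [e, Function.update_self]
      exact hg
  obtain ⟨y, hy⟩ := key d
  exact hy (hwq x0 y)

end Pool.Agent.W5h29.BN
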