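import Pool.Agent.W5h29.BN.Core

/-!
# Doubling words: the criteria
-/

set_option autoImplicit false

namespace Pool.Agent.W5h29.BN

open Subgroup

open scoped commutatorElement

universe u v

/-- the free Burnside group -/
abbrev B (m n : ℕ) : Type :=
  FreeGroup (Fin m) ⧸ Subgroup.normalClosure (Set.range fun w : FreeGroup (Fin m) => w ^ n)

/-- its free generators (and `1` for the other indices) -/
def gen (m n : ℕ) (i : ℕ) : B m n :=
  if h : i < m then QuotientGroup.mk (FreeGroup.of ⟨i, h⟩) else 1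

lemma B_pow (m n : ℕ) (g : B m n) : g ^ n = 1 := by
  obtain ⟨a, rfl⟩ := QuotientGroup.mk_surjective g
  rw [← QuotientGroup.mk_pow]
  exact (QuotientGroup.eq_one_iff _).2 (subset_normalClosure ⟨a, rfl⟩)

/-- the universal property -/
lemma exists_hom {m n : ℕ} {G : Type u} [Group G] (hG : ∀ g : G, g ^ n = 1) (x : ℕ → G) :
    ∃ φ : B m n →* G, ∀ i < m, φ (gen m n i) = x i := by
  set f : FreeGroup (Fin m) →* G := FreeGroup.lift (fun i => x i) with hf
  have hle : Subgroup.normalClosure (Set.range fun w : FreeGroup (Fin m) => w ^ n) ≤ f.ker := by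
    refine normalClosure_le_normal ?_
    rintro _ ⟨a, rfl⟩
    show f (a ^ n) = 1
    rw [map_pow, hG]
  refine ⟨QuotientGroup.lift _ f hle, fun i hi => ?_⟩
  unfold gen
  rw [dif_pos hi]
  show f (FreeGroup.of ⟨i, hi⟩) = x i
  rw [hf, FreeGroup.lift_apply_of]

/-- the first `k` generators -/
def gx (k m n : ℕ) (i : Fin k) : B m n := gen m n i

/-- the generators after the first `k` -/
def gy (k m n : ℕ) (i : ℕ) : B m n := gen m n (k + i)

lemma w_of_gen {k n d : ℕ} {u : FreeGroup (Fin k)}
    (h : w u (gx k (k + d) n) (gy k (k + d) n) d = 1) {G : Type u} [Group G]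
    (hG : ∀ g : G, g ^ n = 1) (x : Fin k → G) (y : ℕ → G) : w u x y d = 1 := by
  classical
  obtain ⟨φ, hφ⟩ := exists_hom (m := k + d) hG
    (fun i => if hi : i < k then x ⟨i, hi⟩ else y (i - k))
  have e : w u x y d = φ (w u (gx k (k + d) n) (gy k (k + d) n) d) := by
    rw [map_w]
    have e1 : x = fun j => φ (gx k (k + d) n j) := by
      funext j
      unfold gx
      rw [hφ j (by omega), dif_pos j.2]
    rw [← e1]
    refine w_congr u x d fun j hj => ?_
    unfold gy
    rw [hφ (k + j) (by omega), dif_neg (by omega), Nat.add_sub_cancel_left]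
  rw [e, h, map_one]

/-- one word in one free Burnside group -/
theorem inL_of_gen {k n d : ℕ} {u : FreeGroup (Fin k)} (hn : 1 ≤ n) (hm : LawLF.{u} n u)
    (h : w u (gx k (k + d) n) (gy k (k + d) n) d = 1) :
    InL.{u} n := fun G _ hG => lf_of_law hn hm G hG (w_of_gen h hG)

lemma finite_B {n : ℕ} (h : InL.{u} n) (m : ℕ) : Finite (B m n) := by
  have h1 : ∀ x : ULift.{u} (B m n), x ^ n = 1 := fun x => by
    apply ULift.down_injective
    rw [ULift.pow_down, B_pow, ULift.one_down]
  have h2 := h (ULift.{u} (B m n)) h1 (Set.range fun i : Fin m => ULift.up (gen m n i))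
    (Set.finite_range _)
  have h3 : closure (Set.range fun i : Fin m => ULift.up.{u} (gen m n i)) = ⊤ := by
    have h4 : closure (Set.range fun i : Fin m => gen m n i) = ⊤ := by
      have h5 : closure (Set.range (FreeGroup.of : Fin m → FreeGroup (Fin m))) = ⊤ :=
        FreeGroup.closure_range_of _
      have h6 := congrArg (Subgroup.map (QuotientGroup.mk' (Subgroup.normalClosure
        (Set.range fun w : FreeGroup (Fin m) => w ^ n)))) h5
      rw [MonoidHom.map_closure, ← MonoidHom.range_eq_map, MonoidHom.range_eq_top.2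
        (QuotientGroup.mk'_surjective _)] at h6
      rw [← h6]
      congr 1
      ext y
      constructor
      · rintro ⟨i, rfl⟩
        refine ⟨FreeGroup.of i, ⟨i, rfl⟩, ?_⟩
        show _ = gen m n i
        unfold gen
        rw [dif_pos i.2]
        rfl
      · rintro ⟨_, ⟨i, rfl⟩, rfl⟩
        refine ⟨i, ?_⟩
        show gen m n i = _
        unfold gen
        rw [dif_pos i.2]
        rfl
    have h7 := congrArg (Subgroup.map (MulEquiv.ulift.{0, u} (α := B m n)).symm.toMonoidHom) h4
    rw [MonoidHom.map_closure, ← MonoidHom.range_eq_map, MonoidHom.range_eq_top.2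
      (MulEquiv.surjective _)] at h7
    rw [← h7]
    congr 1
    ext y
    constructor
    · rintro ⟨i, rfl⟩
      exact ⟨_, ⟨i, rfl⟩, rfl⟩
    · rintro ⟨_, ⟨i, rfl⟩, rfl⟩
      exact ⟨i, rfl⟩
  rw [h3] at h2
  have h8 : Finite (ULift.{u} (B m n)) := Finite.of_equiv _ Subgroup.topEquiv.toEquiv
  exact Finite.of_equiv _ Equiv.ulift

/-- `w` vanishes in the finite groups of exponent dividing `n` -/
def FinLaw {k : ℕ} (u : FreeGroup (Fin k)) (n d : ℕ) : Prop :=
  ∀ (F : Type) [Group F] [Finite F], (∀ g : F, g ^ n = 1) →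
    ∀ (x : Fin k → F) (y : ℕ → F), w u x y d = 1

theorem inL_iff {k n d : ℕ} {u : FreeGroup (Fin k)} (hn : 1 ≤ n) (hm : LawLF.{u} n u)
    (h : FinLaw u n d) : InL.{u} n ↔ Finite (B (k + d) n) := by
  refine ⟨fun h1 => finite_B h1 _, fun h1 => inL_of_gen (d := d) hn hm ?_⟩
  exact h (B (k + d) n) (B_pow _ _) _ _

/-- the word `x₀ ^ m` -/
def pw (m : ℕ) : FreeGroup (Fin 1) := FreeGroup.of 0 ^ m

lemma lift_pw (m : ℕ) {G : Type u} [Group G] (x : Fin 1 → G) :
    FreeGroup.lift x (pw m) = x 0 ^ m := by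
  unfold pw
  rw [map_pow, FreeGroup.lift_apply_of]

lemma lawLF_pw {m : ℕ} (n : ℕ) (hm : InL.{u} m) : LawLF.{u} n (pw m) := by
  intro G _ _ hx
  refine hm G fun g => ?_
  have := hx (fun _ => g)
  rwa [lift_pw] at this

lemma inL_one : InL.{u} 1 := by
  intro G _ hG S _
  have hs : Subsingleton G := ⟨fun a b => by
    have ha := hG a
    have hb := hG b
    rw [pow_one] at ha hb
    rw [ha, hb]⟩
  infer_instance

/-- a property of the finite groups of exponent dividing `n` generated by `d` elements -/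
def FinGen (d n : ℕ) (P : ∀ (F : Type) [Group F], Prop) : Prop :=
  ∀ (F : Type) [Group F] [Finite F], (∀ g : F, g ^ n = 1) →
    (∃ s : Fin d → F, closure (Set.range s) = ⊤) → P F

lemma finLaw_of {k n d : ℕ} {u : FreeGroup (Fin k)} {P : ∀ (F : Type) [Group F], Prop}
    (h : FinGen (k + d) n P)
    (hP : ∀ (F : Type) [Group F], P F → ∀ (x : Fin k → F) (y : ℕ → F), w u x y d = 1) :
    FinLaw u n d := by
  classical
  intro F _ _ hF x y
  set z : ℕ → F := fun i => if hi : i < k then x ⟨i, hi⟩ else y (i - k) with hz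
  set K : Set F := Set.range (fun i : Fin (k + d) => z i) with hK
  have hmem : ∀ i, i < k + d → z i ∈ closure K := fun i hi =>
    subset_closure ⟨⟨i, by omega⟩, rfl⟩
  set s : Fin (k + d) → closure K := fun i => ⟨z i, hmem i i.2⟩ with hs
  have htop : closure (Set.range s) = ⊤ := by
    rw [← closure_closure_coe_preimage (k := K)]
    congr 1
    ext y
    constructor
    · rintro ⟨i, rfl⟩
      exact ⟨i, rfl⟩
    · rintro ⟨i, hi⟩
      exact ⟨i, Subtype.ext hi⟩
  have hPH : P (closure K) := h (closure K) (fun g => Subtype.ext (by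
    rw [Subgroup.coe_pow, hF, Subgroup.coe_one])) ⟨s, htop⟩
  set x' : Fin k → closure K := fun i => ⟨z i, hmem i (by omega)⟩ with hx'
  set y' : ℕ → closure K := fun i => if hi : i < d then ⟨z (k + i), hmem (k + i) (by omega)⟩ else 1
    with hy'
  have h1 := hP (closure K) hPH x' y'
  have e : w u x y d = (closure K).subtype (w u x' y' d) := by
    rw [map_w]
    have e1 : x = fun j => (closure K).subtype (x' j) := by
      funext j
      simp only [hx', Subgroup.subtype_apply, hz, dif_pos j.2]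
    rw [← e1]
    refine w_congr u x d fun j hj => ?_
    simp only [hy', dif_pos hj, Subgroup.subtype_apply, hz]
    rw [dif_neg (by omega), Nat.add_sub_cancel_left]
  rw [e, h1, map_one]

/-- the derived series -/
lemma w_mem_derived {k : ℕ} (u : FreeGroup (Fin k)) {G : Type u} [Group G] (x : Fin k → G)
    (y : ℕ → G) (i : ℕ) : w u x y i ∈ derivedSeries G i := by
  induction i with
  | zero => exact mem_top _
  | succ i ih =>
    simp only [w, derivedSeries_succ]
    exact commutator_mem_commutator ih ((derivedSeries_normal G i).conj_mem' _ ih _)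

/-- series of normal subgroups with `[K i, K j] ≤ K (i + j)` and `K 1 = G` -/
lemma w_mem_series {k : ℕ} (u : FreeGroup (Fin k)) {G : Type u} [Group G] (K : ℕ → Subgroup G)
    (hN : ∀ i, (K i).Normal) (hc : ∀ i j, ⁅K i, K j⁆ ≤ K (i + j)) (h1 : K 1 = ⊤) {a : ℕ}
    {x : Fin k → G} {y : ℕ → G} (h0 : FreeGroup.lift x u ∈ K a) (i : ℕ) :
    w u x y i ∈ K (2 ^ i * (a + 1) - 1) := by
  induction i with
  | zero => simpa [w] using h0
  | succ i ih =>
    set z := w u x y i with hz
    set g := y i with hg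
    set e := 2 ^ i * (a + 1) - 1 with he
    have hpos : 1 ≤ 2 ^ i * (a + 1) := Nat.one_le_iff_ne_zero.2 (by positivity)
    have e1 : 2 ^ (i + 1) * (a + 1) - 1 = e + (e + 1) := by
      rw [he, pow_succ, mul_assoc, mul_comm 2, ← mul_assoc]
      omega
    rw [e1]
    have e2 : w u x y (i + 1) = z * ⁅z, ⁅z⁻¹, g⁻¹⁆⁆ * z⁻¹ := by
      simp only [w, ← hz, ← hg, commutatorElement_def]
      group
    rw [e2]
    refine (hN _).conj_mem _ ?_ _
    refine hc _ _ (commutator_mem_commutator ih ?_)
    refine hc _ _ (commutator_mem_commutator (inv_mem ih) ?_)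
    rw [h1]
    exact mem_top _

lemma three_le {G : Type u} [Group G] {A B C : Subgroup G} (N : Subgroup G) [N.Normal]
    (h1 : ⁅⁅B, C⁆, A⁆ ≤ N) (h2 : ⁅⁅C, A⁆, B⁆ ≤ N) : ⁅⁅A, B⁆, C⁆ ≤ N := by
  have key : ∀ S : Subgroup G, S ≤ N ↔ S.map (QuotientGroup.mk' N) = ⊥ := by
    intro S
    rw [Subgroup.map_eq_bot_iff, QuotientGroup.ker_mk']
  rw [key, Subgroup.map_commutator, Subgroup.map_commutator] at h1 h2 ⊢
  exact Subgroup.commutator_commutator_eq_bot_of_rotate h1 h2

lemma lcs_normal {G : Type u} [Group G] (S : Subgroup G) [hS : S.Normal] (i : ℕ) :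
    (S.lowerCentralSeries i).Normal := by
  induction i with
  | zero => exact hS
  | succ i ih =>
    rw [Subgroup.lowerCentralSeries_succ]
    exact Subgroup.commutator_normal _ _

lemma lcs_comm {G : Type u} [Group G] (S : Subgroup G) [S.Normal] (n : ℕ) : ∀ m : ℕ,
    ⁅S.lowerCentralSeries m, S.lowerCentralSeries n⁆ ≤ S.lowerCentralSeries (m + n + 1) := by
  induction n with
  | zero => intro m; exact le_rfl
  | succ n ih =>
    intro m
    have := lcs_normal S (m + (n + 1) + 1)
    rw [Subgroup.commutator_comm]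
    change ⁅⁅S.lowerCentralSeries n, S⁆, S.lowerCentralSeries m⁆ ≤ _
    apply three_le
    · rw [Subgroup.commutator_comm S]
      have := ih (m + 1)
      rwa [show m + 1 + n + 1 = m + (n + 1) + 1 by ring] at this
    · exact Subgroup.commutator_mono (ih m) (le_refl S)

lemma w_mem_lcs {k : ℕ} (u : FreeGroup (Fin k)) {G : Type u} [Group G] (x : Fin k → G)
    (y : ℕ → G) (i : ℕ) :
    w u x y i ∈ (⊤ : Subgroup G).lowerCentralSeries (2 ^ (i + 1) - 2) := by
  have h := w_mem_series u (fun j => (⊤ : Subgroup G).lowerCentralSeries (j - 1))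
    (fun j => lcs_normal _ _) (fun j k => ?_) rfl (a := 1) (x := x) (y := y) (mem_top _) i
  · have e : 2 ^ i * (1 + 1) - 1 - 1 = 2 ^ (i + 1) - 2 := by
      rw [pow_succ]
      omega
    simp only [e] at h
    exact h
  · rcases Nat.eq_zero_or_pos j with rfl | hj
    · have := lcs_normal (⊤ : Subgroup G) (k - 1)
      simp only [zero_add]
      exact commutator_le_right _ _
    rcases Nat.eq_zero_or_pos k with rfl | hk
    · have := lcs_normal (⊤ : Subgroup G) (j - 1)
      simp only [add_zero]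
      exact commutator_le_left _ _
    · have := lcs_comm (⊤ : Subgroup G) (k - 1) (j - 1)
      rwa [show j - 1 + (k - 1) + 1 = j + k - 1 by omega] at this

lemma w_mem_closure {k : ℕ} (u : FreeGroup (Fin k)) {G : Type u} [Group G] (x : Fin k → G)
    (y : ℕ → G) (i : ℕ) :
    w u x y i ∈
      (normalClosure ({FreeGroup.lift x u} : Set G)).lowerCentralSeries (2 ^ i - 1) := by
  induction i with
  | zero =>
    simp only [w, pow_zero, Nat.sub_self, Subgroup.lowerCentralSeries_zero]
    exact subset_normalClosure rfl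
  | succ i ih =>
    have hN := lcs_normal (normalClosure ({FreeGroup.lift x u} : Set G)) (2 ^ i - 1)
    have h := lcs_comm (normalClosure ({FreeGroup.lift x u} : Set G)) (2 ^ i - 1) (2 ^ i - 1)
      (commutator_mem_commutator ih (hN.conj_mem' _ ih (y i)))
    have hp : 1 ≤ 2 ^ i := Nat.one_le_two_pow
    rw [show 2 ^ i - 1 + (2 ^ i - 1) + 1 = 2 ^ (i + 1) - 1 by rw [pow_succ]; omega] at h
    exact h

/-- descending series with `[K i, K j] ≤ K (i + j)` and `(K i) ^ p ≤ K (p i)` -/
structure IsNp (p : ℕ) {G : Type u} [Group G] (K : ℕ → Subgroup G) : Prop where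
  one : K 1 = ⊤
  anti : ∀ i, K (i + 1) ≤ K i
  comm : ∀ i j, ⁅K i, K j⁆ ≤ K (i + j)
  pow : ∀ i, ∀ x ∈ K i, x ^ p ∈ K (p * i)

/-- the smallest such series -/
def JLZ (p : ℕ) (G : Type u) [Group G] (i : ℕ) : Subgroup G :=
  ⨅ K ∈ {K : ℕ → Subgroup G | IsNp p K}, K i

lemma w_mem_JLZ {G : Type u} [Group G] {p k : ℕ} (x : Fin 1 → G) (y : ℕ → G) (i : ℕ) :
    w (pw (p ^ k)) x y i ∈ JLZ p G (2 ^ i * (p ^ k + 1) - 1) := by
  unfold JLZ
  simp only [Set.mem_ofPred_eq, Subgroup.mem_iInf]
  intro K hK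
  have hN : ∀ i, (K i).Normal := fun i => ⟨fun a ha g => by
    have h1 : ⁅g, a⁆ ∈ K i := by
      have h2 : ⁅g, a⁆ ∈ K (1 + i) := hK.comm 1 i (commutator_mem_commutator (by
        rw [hK.one]; exact mem_top _) ha)
      rw [add_comm] at h2
      exact hK.anti i h2
    have h3 := mul_mem h1 ha
    rwa [commutatorElement_def, inv_mul_cancel_right] at h3⟩
  have h0 : ∀ k : ℕ, x 0 ^ p ^ k ∈ K (p ^ k) := by
    intro k
    induction k with
    | zero => rw [pow_zero, pow_one, hK.one]; exact mem_top _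
    | succ k ih =>
      have := hK.pow _ _ ih
      rwa [← pow_mul, ← pow_succ, mul_comm p, ← pow_succ] at this
  refine w_mem_series _ K hN hK.comm hK.one ?_ i
  rw [lift_pw]
  exact h0 k

/-- derived length -/
theorem crit_derived {n d : ℕ} (hn : 1 ≤ n)
    (h : FinGen (1 + d) n fun F _ => derivedSeries F d = ⊥) :
    InL.{u} n ↔ Finite (B (1 + d) n) := by
  refine inL_iff (u := pw 1) hn (lawLF_pw n inL_one) (finLaw_of h ?_)
  intro F _ hF x y
  have := w_mem_derived (pw 1) x y d
  rw [hF] at this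
  exact mem_bot.1 this

/-- nilpotency class -/
theorem crit_class {n d : ℕ} (hn : 1 ≤ n)
    (h : FinGen (1 + d) n fun F _ => (⊤ : Subgroup F).lowerCentralSeries (2 ^ (d + 1) - 2) = ⊥) :
    InL.{u} n ↔ Finite (B (1 + d) n) := by
  refine inL_iff (u := pw 1) hn (lawLF_pw n inL_one) (finLaw_of h ?_)
  intro F _ hF x y
  have := w_mem_lcs (pw 1) x y d
  rw [hF] at this
  exact mem_bot.1 this

/-- nilpotency class of the normal closures of the elements -/
theorem crit_closure {n d : ℕ} (hn : 1 ≤ n)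
    (h : FinGen (1 + d) n fun F _ => ∀ a : F,
      (normalClosure ({a} : Set F)).lowerCentralSeries (2 ^ d - 1) = ⊥) :
    InL.{u} n ↔ Finite (B (1 + d) n) := by
  refine inL_iff (u := pw 1) hn (lawLF_pw n inL_one) (finLaw_of h ?_)
  intro F _ hF x y
  have := w_mem_closure (pw 1) x y d
  rw [hF] at this
  exact mem_bot.1 this

/-- the series of Jennings, Lazard and Zassenhaus -/
theorem crit_JLZ {p k d : ℕ} (hp : 1 ≤ p) (hk : InL.{u} (p ^ k))
    (h : FinGen (1 + d) (p ^ (k + 1)) fun F _ => JLZ p F (2 ^ d * (p ^ k + 1) - 1) = ⊥) :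
    InL.{u} (p ^ (k + 1)) ↔ Finite (B (1 + d) (p ^ (k + 1))) := by
  refine inL_iff (u := pw (p ^ k)) (Nat.one_le_pow _ _ hp) (lawLF_pw _ hk) (finLaw_of h ?_)
  intro F _ hF x y
  have := w_mem_JLZ (p := p) (k := k) x y d
  rw [hF] at this
  exact mem_bot.1 this

end Pool.Agent.W5h29.BN
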