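import Pool.Agent.W5h29.BN.Crit

/-!
# Doubling words and abelian normal subgroups
-/

set_option autoImplicit false

namespace Pool.Agent.W5h29.BN

open Subgroup

open scoped commutatorElement

universe u v

/-- every nontrivial group satisfying the law has a nontrivial abelian normal subgroup -/
lemma exists_abelian_of_law {d : ℕ} (G : Type u) [Group G] [Nontrivial G]
    (hw : ∀ (x : Fin 1 → G) (y : ℕ → G), w (pw 1) x y d = 1) : ∃ A : Subgroup G,
      A.Normal ∧ A ≠ ⊥ ∧ ∀ a ∈ A, ∀ b ∈ A, a * b = b * a := by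
  by_contra hcon
  push Not at hcon
  have hno : ∀ z : G, z ≠ 1 → ∃ g : G, ⁅z, g⁻¹ * z * g⁆ ≠ 1 := by
    intro z hz
    by_contra h
    push Not at h
    obtain ⟨a, ha, b, hb, hab⟩ := hcon (normalClosure ({z} : Set G)) inferInstance (by
      intro h1
      have h2 : z ∈ normalClosure ({z} : Set G) := subset_normalClosure rfl
      rw [h1] at h2
      exact hz (mem_bot.1 h2))
    exact hab (normalClosure_comm z h a ha b hb)
  obtain ⟨x0, hx0⟩ := exists_ne (1 : G)
  have key : ∀ i : ℕ, ∃ y : ℕ → G, w (pw 1) (fun _ => x0) y i ≠ 1 := by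
    intro i
    induction i with
    | zero => exact ⟨fun _ => 1, by simpa [w, lift_pw] using hx0⟩
    | succ i ih =>
      obtain ⟨y, hy⟩ := ih
      obtain ⟨g, hg⟩ := hno _ hy
      refine ⟨Function.update y i g, ?_⟩
      have e : w (pw 1) (fun _ => x0) (Function.update y i g) i = w (pw 1) (fun _ => x0) y i :=
        w_congr _ _ i (fun j hj => Function.update_of_ne (by omega) _ _)
      simp only [w]
      rw [e, Function.update_self]
      exact hg
  obtain ⟨y, hy⟩ := key d
  exact hy (hw _ y)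

/-- the free group of exponent `n` of countable rank -/
abbrev BI (n : ℕ) : Type u :=
  FreeGroup (ULift.{u} ℕ) ⧸
    Subgroup.normalClosure (Set.range fun w : FreeGroup (ULift.{u} ℕ) => w ^ n)

lemma BI_pow (n : ℕ) (g : BI.{u} n) : g ^ n = 1 := by
  obtain ⟨a, rfl⟩ := QuotientGroup.mk_surjective g
  rw [← QuotientGroup.mk_pow]
  exact (QuotientGroup.eq_one_iff _).2 (subset_normalClosure ⟨a, rfl⟩)

lemma BI_hom {n : ℕ} {G : Type v} [Group G] (hG : ∀ g : G, g ^ n = 1) (x : ℕ → G) :
    ∃ φ : BI.{u} n →* G, ∀ i,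
      φ ((QuotientGroup.mk (FreeGroup.of (ULift.up i)) : BI.{u} n)) = x i := by
  set f : FreeGroup (ULift.{u} ℕ) →* G := FreeGroup.lift (fun i => x i.down) with hf
  have hle : Subgroup.normalClosure (Set.range fun w : FreeGroup (ULift.{u} ℕ) => w ^ n) ≤
      f.ker := by
    refine normalClosure_le_normal ?_
    rintro _ ⟨a, rfl⟩
    show f (a ^ n) = 1
    rw [map_pow, hG]
  refine ⟨QuotientGroup.lift _ f hle, fun i => ?_⟩
  show f (FreeGroup.of (ULift.up i)) = x i
  rw [hf, FreeGroup.lift_apply_of]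

theorem hyper_iff {n : ℕ} :
    (∃ d, w (pw 1) (gx 1 (1 + d) n) (gy 1 (1 + d) n) d = 1) ↔
    ∀ (G : Type u) [Group G] [Nontrivial G], (∀ g : G, g ^ n = 1) →
      ∃ A : Subgroup G, A.Normal ∧ A ≠ ⊥ ∧ ∀ a ∈ A, ∀ b ∈ A, a * b = b * a := by
  constructor
  · rintro ⟨d, hd⟩ G _ _ hG
    exact exists_abelian_of_law G (w_of_gen hd hG)
  · intro h
    by_contra hcon
    push Not at hcon
    set z : ℕ → BI.{u} n := fun i => QuotientGroup.mk (FreeGroup.of (ULift.up i)) with hz
    set x : Fin 1 → BI.{u} n := fun i => z i with hx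
    set y : ℕ → BI.{u} n := fun i => z (1 + i) with hy
    have h0 : ∀ i, w (pw 1) x y i ≠ 1 := by
      intro i hi
      obtain ⟨φ, hφ⟩ := BI_hom.{u} (B_pow (1 + i) n) (gen (1 + i) n)
      refine hcon i ?_
      have e : w (pw 1) (gx 1 (1 + i) n) (gy 1 (1 + i) n) i = φ (w (pw 1) x y i) := by
        rw [map_w]
        congr 1
        · funext j
          exact (hφ j).symm
        · funext j
          exact (hφ (1 + j)).symm
      rw [e, hi, map_one]
    have hzo : ∃ R : Subgroup (BI.{u} n),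
        Maximal (fun N : Subgroup (BI.{u} n) => N.Normal ∧ ∀ i, w (pw 1) x y i ∉ N) R := by
      refine zorn_le₀ {N : Subgroup (BI.{u} n) | N.Normal ∧ ∀ i, w (pw 1) x y i ∉ N} ?_
      intro c hc hchain
      rcases c.eq_empty_or_nonempty with rfl | hne
      · exact ⟨⊥, ⟨inferInstance, fun i hi => h0 i (mem_bot.1 hi)⟩, fun z hz => hz.elim⟩
      · have hdir : DirectedOn (· ≤ ·) c := hchain.directedOn
        refine ⟨sSup c, ⟨?_, ?_⟩, fun N hN => le_sSup hN⟩
        · constructor
          intro y hy g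
          rw [Subgroup.mem_sSup_of_directedOn hne hdir] at hy ⊢
          obtain ⟨N, hN, hyN⟩ := hy
          exact ⟨N, hN, (hc hN).1.conj_mem y hyN g⟩
        · intro i hi
          rw [Subgroup.mem_sSup_of_directedOn hne hdir] at hi
          obtain ⟨N, hN, hiN⟩ := hi
          exact (hc hN).2 i hiN
    obtain ⟨R, hR⟩ := hzo
    have hRn : R.Normal := hR.prop.1
    have hnt : Nontrivial (BI.{u} n ⧸ R) := by
      refine ⟨⟨QuotientGroup.mk (w (pw 1) x y 0), 1, fun h1 => ?_⟩⟩
      exact hR.prop.2 0 ((QuotientGroup.eq_one_iff _).1 h1)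
    obtain ⟨A, hA, hA0, hAc⟩ := h (BI.{u} n ⧸ R) (fun g => by
      obtain ⟨y, rfl⟩ := QuotientGroup.mk_surjective g
      rw [← QuotientGroup.mk_pow, BI_pow, QuotientGroup.mk_one])
    set C := A.comap (QuotientGroup.mk' R) with hC
    have hCn : C.Normal := inferInstance
    have hRC : R ≤ C := by
      intro r hr
      rw [hC, mem_comap]
      have : (QuotientGroup.mk' R) r = 1 := (QuotientGroup.eq_one_iff r).2 hr
      rw [this]
      exact one_mem _
    have hex : ∃ i, w (pw 1) x y i ∈ C := by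
      by_contra hno
      push Not at hno
      have h1 : C ≤ R := hR.le_of_ge ⟨hCn, hno⟩ hRC
      refine hA0 (le_bot_iff.1 ?_)
      intro a ha
      obtain ⟨y, rfl⟩ := QuotientGroup.mk'_surjective R a
      exact (QuotientGroup.eq_one_iff y).2 (h1 ha)
    obtain ⟨i, hi⟩ := hex
    refine hR.prop.2 (i + 1) ?_
    rw [← QuotientGroup.eq_one_iff]
    show (QuotientGroup.mk' R) (w (pw 1) x y (i + 1)) = 1
    have h2 : (QuotientGroup.mk' R) (w (pw 1) x y i) ∈ A := hi
    have h3 : (QuotientGroup.mk' R) ((y i)⁻¹ * w (pw 1) x y i * y i) ∈ A := by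
      rw [map_mul, map_mul, map_inv]
      exact hA.conj_mem' _ h2 _
    simp only [w]
    rw [map_commutatorElement, commutatorElement_eq_one_iff_mul_comm]
    exact hAc _ h2 _ h3

end Pool.Agent.W5h29.BN
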